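import Pool.Agent.R455.TreeSplit

/-!
MP_0d27c8_co: the largest `c` with `ESPN(T) ≥ c n(T)` for every tree `T` is `4/5`.
-/

namespace Pool.Agent.Results.MP_0d27c8_co.TreeConstant

open SimpleGraph Finset Pool.Agent.R455

/-- The number of external private neighbours plus the number of self private neighbours
with respect to `U`. -/
noncomputable def score {V : Type*} [Fintype V] (G : SimpleGraph V) (U : Set V) : ℕ :=
  {w : V | w ∉ U ∧ (G.neighborSet w ∩ U).ncard = 1}.ncard +
  {w : V | w ∈ U ∧ G.neighborSet w ∩ U = ∅}.ncard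

/-- `ESPN(G)`. -/
noncomputable def ESPN {V : Type*} [Fintype V] (G : SimpleGraph V) : ℕ :=
  sSup (Set.range (fun U : Set V => score G U))

section lower

variable {V : Type*} [DecidableEq V]

open Classical in
/-- number of neighbours of `w` in `U` -/
noncomputable def dg (G : SimpleGraph V) (U : Finset V) (w : V) : ℕ := (U.filter (fun x => G.Adj w x)).card

/-- `w` is a private neighbour (external or self) with respect to `U`. -/
def Good (G : SimpleGraph V) (U : Finset V) (w : V) : Prop :=
  (w ∉ U ∧ dg G U w = 1) ∨ (w ∈ U ∧ dg G U w = 0)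

open Classical in
noncomputable def g (G : SimpleGraph V) (S U : Finset V) (r : V) : ℕ := ((S.erase r).filter (fun w => Good G U w)).card

/-- state of the root: `a`: in `U`, no neighbour in `U`; `b`: not in `U`, none; `c`: not in `U`, one;
`d`: not in `U`, at least two. -/
inductive Sta | a | b | c | d
deriving DecidableEq

instance : Fintype Sta := ⟨{.a, .b, .c, .d}, by intro x; cases x <;> simp⟩

def St (G : SimpleGraph V) (U : Finset V) (r : V) : Sta → Prop
  | .a => r ∈ U ∧ dg G U r = 0
  | .b => r ∉ U ∧ dg G U r = 0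
  | .c => r ∉ U ∧ dg G U r = 1
  | .d => r ∉ U ∧ 2 ≤ dg G U r

def E (G : SimpleGraph V) (S : Finset V) (r : V) (s : Sta) (v : ℤ) : Prop :=
  ∃ U ⊆ S, St G U r s ∧ v ≤ 5 * (g G S U r : ℤ) - 4 * S.card

/-- the new state of the root `r` after adding a child in state `t` -/
def tr : Sta → Sta → Option Sta
  | .a, .a => none
  | .a, .b => some .a
  | .a, .c => some .a
  | .a, .d => some .a
  | .b, .a => some .c
  | .b, .b => some .b
  | .b, .c => some .b
  | .b, .d => some .b
  | .c, .a => some .d
  | .c, .b => some .c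
  | .c, .c => some .c
  | .c, .d => some .c
  | .d, _ => some .d

/-- is the child private after adding it? -/
def bn : Sta → Sta → ℤ
  | .a, .a => 0
  | .a, .b => 1
  | .a, .c => 0
  | .a, .d => 0
  | .b, .a => 1
  | .b, .b => 0
  | .b, .c => 1
  | .b, .d => 0
  | .c, .a => 1
  | .c, .b => 0
  | .c, .c => 1
  | .c, .d => 0
  | .d, .a => 1
  | .d, .b => 0
  | .d, .c => 1
  | .d, .d => 0

theorem dg_union (G : SimpleGraph V) (A B : Finset V) (h : Disjoint A B) (w : V) :
    dg G (A ∪ B) w = dg G A w + dg G B w := by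
  classical
  unfold dg
  rw [filter_union, card_union_of_disjoint]
  exact Finset.disjoint_filter_filter h

theorem dg_zero (G : SimpleGraph V) (A : Finset V) (w : V) (h : ∀ x ∈ A, ¬ G.Adj w x) :
    dg G A w = 0 := by
  classical
  unfold dg
  rw [card_eq_zero, filter_eq_empty_iff]
  exact fun x hx => h x hx

theorem dg_one (G : SimpleGraph V) (A : Finset V) (w k : V) (hk : G.Adj w k) (h : ∀ x ∈ A, G.Adj w x → x = k) :
    dg G A w = if k ∈ A then 1 else 0 := by
  classical
  unfold dg
  split_ifs with hkA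
  · rw [card_eq_one]
    refine ⟨k, ?_⟩
    ext x
    simp only [mem_filter, mem_singleton]
    constructor
    · rintro ⟨hx, hwx⟩; exact h x hx hwx
    · rintro rfl; exact ⟨hkA, hk⟩
  · rw [card_eq_zero, filter_eq_empty_iff]
    intro x hx hwx
    exact hkA (h x hx hwx ▸ hx)


theorem st_aux (G : SimpleGraph V) (A B : Finset V) (r k : V) (s t s' : Sta)
    (hrA : r ∈ A ∪ B ↔ r ∈ A) (dr : dg G (A ∪ B) r = dg G A r + (if k ∈ B then 1 else 0))
    (hsA : St G A r s) (hsB : St G B k t) (hs : tr s t = some s') : St G (A ∪ B) r s' := by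
  cases s <;> cases t <;> simp only [tr, Option.some.injEq, reduceCtorEq] at hs <;>
    (subst hs
     simp only [St] at hsA hsB ⊢
     rw [dr, hrA]
     simp only [hsB.1, if_true, if_false]
     refine ⟨hsA.1, ?_⟩
     have := hsA.2
     omega)

theorem bn_aux (G : SimpleGraph V) (A B : Finset V) (r k : V) (s t s' : Sta) (P : Prop) [Decidable P]
    (hgk : P ↔ ((k ∉ B ∧ dg G B k + (if r ∈ A then 1 else 0) = 1) ∨
      (k ∈ B ∧ dg G B k + (if r ∈ A then 1 else 0) = 0)))
    (hsA : St G A r s) (hsB : St G B k t) (hs : tr s t = some s') :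
    bn s t ≤ ((if P then 1 else 0 : ℕ) : ℤ) := by
  have hnn : (0:ℤ) ≤ ((if P then 1 else 0 : ℕ) : ℤ) := Int.natCast_nonneg _
  cases s <;> cases t <;> simp only [tr, Option.some.injEq, reduceCtorEq] at hs <;>
    first
    | exact hnn
    | (simp only [St] at hsA hsB
       have hP : P := by
         rw [hgk]
         simp [hsA.1, hsB.1, hsB.2]
       rw [if_pos hP]
       simp [bn])

theorem combine (G : SimpleGraph V) (R K : Finset V) (r k : V) (hr : r ∈ R) (hk : k ∈ K)
    (hd : Disjoint R K) (hadj : G.Adj r k) (hcut : ∀ x ∈ R, ∀ y ∈ K, G.Adj x y → x = r ∧ y = k)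
    (s t s' : Sta) (hs : tr s t = some s') (v1 v2 v : ℤ) (h1 : E G R r s v1) (h2 : E G K k t v2)
    (hv : v ≤ v1 + v2 + 5 * bn s t) : E G (R ∪ K) r s' v := by
  classical
  obtain ⟨A, hA, hsA, hvA⟩ := h1
  obtain ⟨B, hB, hsB, hvB⟩ := h2
  have hdAB : Disjoint A B := disjoint_of_subset_left hA (disjoint_of_subset_right hB hd)
  have hrB : r ∉ B := fun h => (Finset.disjoint_left.1 hd hr) (hB h)
  have hkA : k ∉ A := fun h => (Finset.disjoint_right.1 hd hk) (hA h)
  have hrK : r ∉ K := Finset.disjoint_left.1 hd hr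
  have hkR : k ∉ R := Finset.disjoint_right.1 hd hk
  -- degrees
  have dr : dg G (A ∪ B) r = dg G A r + (if k ∈ B then 1 else 0) := by
    rw [dg_union _ _ _ hdAB, dg_one G B r k hadj (fun x hx h => (hcut r hr x (hB hx) h).2)]
  have dk : dg G (A ∪ B) k = dg G B k + (if r ∈ A then 1 else 0) := by
    rw [dg_union _ _ _ hdAB, dg_one G A k r hadj.symm (fun x hx h => (hcut x (hA hx) k hk h.symm).1), add_comm]
  have dR : ∀ w ∈ R, w ≠ r → dg G (A ∪ B) w = dg G A w := by
    intro w hw hwr
    rw [dg_union _ _ _ hdAB, dg_zero G B w (fun x hx h => hwr (hcut w hw x (hB hx) h).1), add_zero]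
  have dK : ∀ w ∈ K, w ≠ k → dg G (A ∪ B) w = dg G B w := by
    intro w hw hwk
    rw [dg_union _ _ _ hdAB, dg_zero G A w (fun x hx h => hwk (hcut x (hA hx) w hw h.symm).2), zero_add]
  have mR : ∀ w ∈ R, (w ∈ A ∪ B ↔ w ∈ A) := by
    intro w hw
    simp only [mem_union, or_iff_left_iff_imp]
    intro h; exact absurd (hB h) (Finset.disjoint_left.1 hd hw)
  have mK : ∀ w ∈ K, (w ∈ A ∪ B ↔ w ∈ B) := by
    intro w hw
    simp only [mem_union, or_iff_right_iff_imp]
    intro h; exact absurd hw (Finset.disjoint_left.1 hd (hA h))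
  have gR : ∀ w ∈ R, w ≠ r → (Good G (A ∪ B) w ↔ Good G A w) := by
    intro w hw hwr; unfold Good; rw [mR w hw, dR w hw hwr]
  have gK : ∀ w ∈ K, w ≠ k → (Good G (A ∪ B) w ↔ Good G B w) := by
    intro w hw hwk; unfold Good; rw [mK w hw, dK w hw hwk]
  -- counting
  have hcount : g G (R ∪ K) (A ∪ B) r = g G R A r + g G K B k + (if Good G (A ∪ B) k then 1 else 0) := by
    unfold g
    have e1 : (R ∪ K).erase r = (R.erase r) ∪ (K.erase k) ∪ {k} := by
      ext w
      simp only [mem_erase, mem_union, mem_singleton]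
      constructor
      · rintro ⟨h, h' | h'⟩
        · exact Or.inl (Or.inl ⟨h, h'⟩)
        · by_cases hwk : w = k
          · exact Or.inr hwk
          · exact Or.inl (Or.inr ⟨hwk, h'⟩)
      · rintro ((⟨h, h'⟩ | ⟨h, h'⟩) | h)
        · exact ⟨h, Or.inl h'⟩
        · exact ⟨fun h2 => hrK (h2 ▸ h'), Or.inr h'⟩
        · subst h; exact ⟨hadj.ne', Or.inr hk⟩
    rw [e1, filter_union, filter_union, card_union_of_disjoint, card_union_of_disjoint]
    · congr 1
      · congr 1
        · congr 1
          apply filter_congr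
          intro w hw
          rw [mem_erase] at hw
          exact gR w hw.2 hw.1
        · congr 1
          apply filter_congr
          intro w hw
          rw [mem_erase] at hw
          exact gK w hw.2 hw.1
      · rw [filter_singleton]
        split_ifs <;> simp
    · apply Finset.disjoint_filter_filter
      exact disjoint_of_subset_left (erase_subset _ _) (disjoint_of_subset_right (erase_subset _ _) hd)
    · apply disjoint_of_subset_left (union_subset_union (filter_subset _ _) (filter_subset _ _))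
      apply disjoint_of_subset_right (filter_subset _ _)
      rw [disjoint_singleton_right]
      simp [hkR]
  have hgk : (Good G (A ∪ B) k) ↔ ((k ∉ B ∧ dg G B k + (if r ∈ A then 1 else 0) = 1) ∨
      (k ∈ B ∧ dg G B k + (if r ∈ A then 1 else 0) = 0)) := by
    unfold Good; rw [mK k hk, dk]
  have hbn : bn s t ≤ ((if Good G (A ∪ B) k then 1 else 0 : ℕ) : ℤ) := by
    exact bn_aux G A B r k s t s' _ hgk hsA hsB hs
  have hst : St G (A ∪ B) r s' := st_aux G A B r k s t s' (mR r hr) dr hsA hsB hs
  refine ⟨A ∪ B, union_subset_union hA hB, hst, ?_⟩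
  rw [hcount, card_union_of_disjoint hd]
  push_cast
  push_cast at hbn
  linarith

theorem E_mono {G : SimpleGraph V} {S : Finset V} {r : V} {s : Sta} {v v' : ℤ} (h : E G S r s v)
    (hv : v' ≤ v) : E G S r s v' := by
  obtain ⟨U, h1, h2, h3⟩ := h
  exact ⟨U, h1, h2, hv.trans h3⟩

def pat (x y z w : Option ℤ) : Sta → Option ℤ
  | .a => x
  | .b => y
  | .c => z
  | .d => w

/-- the seven patterns -/
def M : List (Sta → Option ℤ) :=
  [pat none none (some (-1)) none,
   pat none none none (some 0),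
   pat none (some 0) none none,
   pat (some (-4)) (some (-4)) none none,
   pat (some (-3)) none (some (-3)) none,
   pat none (some (-2)) (some (-2)) none,
   pat (some (-2)) none none (some (-2))]

def Q (G : SimpleGraph V) (S : Finset V) (r : V) : Prop :=
  ∃ m ∈ M, ∀ s v, m s = some v → E G S r s v

def okc (m1 m2 m3 : Sta → Option ℤ) : Bool :=
  decide (∀ s' : Sta, (m3 s').isSome = true → ∃ s t : Sta, tr s t = some s' ∧ (m1 s).isSome = true ∧
    (m2 t).isSome = true ∧ (m3 s').getD 0 ≤ (m1 s).getD 0 + (m2 t).getD 0 + 5 * bn s t)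

theorem closure : ∀ m1 ∈ M, ∀ m2 ∈ M, ∃ m3 ∈ M, okc m1 m2 m3 = true := by decide

theorem Q_step (G : SimpleGraph V) (R K : Finset V) (r k : V) (hr : r ∈ R) (hk : k ∈ K)
    (hd : Disjoint R K) (hadj : G.Adj r k) (hcut : ∀ x ∈ R, ∀ y ∈ K, G.Adj x y → x = r ∧ y = k)
    (h1 : Q G R r) (h2 : Q G K k) : Q G (R ∪ K) r := by
  obtain ⟨m1, hm1, h1⟩ := h1
  obtain ⟨m2, hm2, h2⟩ := h2
  obtain ⟨m3, hm3, h3⟩ := closure m1 hm1 m2 hm2
  refine ⟨m3, hm3, ?_⟩
  intro s' v hv
  simp only [okc, decide_eq_true_eq] at h3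
  obtain ⟨s, t, hst, hs, ht, hle⟩ := h3 s' (by rw [hv]; rfl)
  obtain ⟨v1, hv1⟩ := Option.isSome_iff_exists.1 hs
  obtain ⟨v2, hv2⟩ := Option.isSome_iff_exists.1 ht
  rw [hv, hv1, hv2] at hle
  exact combine G R K r k hr hk hd hadj hcut s t s' hst v1 v2 v (h1 s v1 hv1) (h2 t v2 hv2) hle

theorem Q_base (G : SimpleGraph V) (r : V) : Q G {r} r := by
  classical
  refine ⟨pat (some (-4)) (some (-4)) none none, by simp [M], ?_⟩
  intro s v hv
  cases s
  · simp only [pat, Option.some.injEq] at hv
    subst hv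
    refine ⟨{r}, subset_rfl, ?_, ?_⟩
    · refine ⟨by simp, dg_zero _ _ _ ?_⟩
      intro x hx; rw [mem_singleton] at hx; subst hx; exact G.loopless.irrefl _
    · simp
  · simp only [pat, Option.some.injEq] at hv
    subst hv
    refine ⟨∅, by simp, ?_, ?_⟩
    · exact ⟨by simp, dg_zero _ _ _ (by simp)⟩
    · simp
  · simp [pat] at hv
  · simp [pat] at hv

theorem Q_all (G : SimpleGraph V) (hG : G.IsAcyclic) (S : Finset V) (hS : ConnOn G S) (r : V)
    (hr : r ∈ S) : Q G S r :=
  tree_induction G hG (Q G) (Q_base G)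
    (fun R K r k h1 h2 h3 h4 h5 h6 h7 => Q_step G R K r k h1 h2 h3 h4 h5 h6 h7) S hS r hr

/-- every pattern gives a set with at least `4/5 |S|` private neighbours -/
theorem exists_good (G : SimpleGraph V) (S : Finset V) (r : V) (hr : r ∈ S) (h : Q G S r) :
    ∃ U ⊆ S, ∀ c : ℕ, (∀ F : Finset V, (∀ w, w ∈ F ↔ w ∈ S ∧ Good G U w) → F.card ≤ c) →
      4 * S.card ≤ 5 * c := by
  classical
  have key : ∃ s v, E G S r s v ∧ 0 ≤ v + (match s with | Sta.a => 5 | Sta.c => 5 | _ => 0) := by
    obtain ⟨m, hm, h⟩ := h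
    simp only [M, List.mem_cons, List.not_mem_nil, or_false] at hm
    rcases hm with rfl | rfl | rfl | rfl | rfl | rfl | rfl
    · exact ⟨.c, -1, h .c (-1) rfl, by norm_num⟩
    · exact ⟨.d, 0, h .d 0 rfl, by norm_num⟩
    · exact ⟨.b, 0, h .b 0 rfl, by norm_num⟩
    · exact ⟨.a, -4, h .a (-4) rfl, by norm_num⟩
    · exact ⟨.a, -3, h .a (-3) rfl, by norm_num⟩
    · exact ⟨.c, -2, h .c (-2) rfl, by norm_num⟩
    · exact ⟨.a, -2, h .a (-2) rfl, by norm_num⟩
  obtain ⟨s, v, ⟨U, hU, hs, hv⟩, h0⟩ := key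
  refine ⟨U, hU, fun c hc => ?_⟩
  have h1 := hc (S.filter (fun w => Good G U w)) (fun w => by simp)
  have h2 : (S.filter (fun w => Good G U w)).card = g G S U r + (if Good G U r then 1 else 0) := by
    unfold g
    conv_lhs => rw [← insert_erase hr]
    rw [filter_insert]
    split_ifs with hg
    · rw [card_insert_of_notMem (by simp)]
    · simp
  cases s with
  | a =>
    have hg : Good G U r := Or.inr hs
    rw [if_pos hg] at h2
    simp only at h0
    omega
  | b => simp only at h0; split_ifs at h2 <;> omega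
  | c =>
    have hg : Good G U r := Or.inl hs
    rw [if_pos hg] at h2
    simp only at h0
    omega
  | d => simp only at h0; split_ifs at h2 <;> omega

end lower

theorem score_le {V : Type*} [Fintype V] (G : SimpleGraph V) (U : Set V) : score G U ≤ Fintype.card V := by
  classical
  unfold score
  rw [← Nat.card_eq_fintype_card, ← Set.ncard_univ, ← Set.ncard_union_eq]
  · exact Set.ncard_le_ncard (Set.subset_univ _) (Set.toFinite _)
  · rw [Set.disjoint_left]; rintro w ⟨h1, _⟩ ⟨h2, _⟩; exact h1 h2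

theorem bdd {V : Type*} [Fintype V] (G : SimpleGraph V) :
    BddAbove (Set.range (fun U : Set V => score G U)) :=
  ⟨Fintype.card V, by rintro _ ⟨U, rfl⟩; exact score_le G U⟩

theorem le_espn {V : Type*} [Fintype V] (G : SimpleGraph V) (U : Set V) : score G U ≤ ESPN G :=
  le_csSup (bdd G) ⟨U, rfl⟩

theorem dg_eq {V : Type*} [Fintype V] [DecidableEq V] (G : SimpleGraph V) (U : Finset V) (w : V) :
    (G.neighborSet w ∩ (U : Set V)).ncard = dg G U w := by
  classical
  unfold dg
  rw [← Set.ncard_coe_finset]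
  congr 1
  ext x
  simp [and_comm]

theorem score_eq {V : Type*} [Fintype V] [DecidableEq V] (G : SimpleGraph V) (U F : Finset V)
    (hF : ∀ w, w ∈ F ↔ w ∈ (univ : Finset V) ∧ Good G U w) : F.card = score G (U : Set V) := by
  classical
  unfold score
  rw [← Set.ncard_union_eq]
  · rw [← Set.ncard_coe_finset]
    congr 1
    ext w
    simp only [Finset.mem_coe, hF, mem_univ, true_and, Good, Set.mem_union, Set.mem_ofPred_eq, dg_eq]
    rw [← dg_eq G U w, Set.ncard_eq_zero (Set.toFinite _)]
  · rw [Set.disjoint_left]; rintro w ⟨h1, _⟩ ⟨h2, _⟩; exact h1 h2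

theorem lower_bound {V : Type*} [Fintype V] (T : SimpleGraph V) (hT : T.IsTree) :
    4 * Fintype.card V ≤ 5 * ESPN T := by
  classical
  obtain ⟨r⟩ := hT.connected.nonempty
  obtain ⟨U, -, h⟩ := exists_good T univ r (mem_univ r)
    (Q_all T hT.isAcyclic univ (connOn_univ hT.connected) r (mem_univ r))
  have := h (ESPN T) (fun F hF => by rw [score_eq T U F hF]; exact le_espn T _)
  rwa [card_univ] at this

/-- the five-vertex tree with edges 01, 12, 23, 24 -/
def chair : SimpleGraph (Fin 5) :=
  SimpleGraph.fromRel (fun i j => (i = 0 ∧ j = 1) ∨ (i = 1 ∧ j = 2) ∨ (i = 2 ∧ j = 3) ∨ (i = 2 ∧ j = 4))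

instance : DecidableRel chair.Adj := by unfold chair; infer_instance

theorem chair_tree : chair.IsTree := by
  rw [SimpleGraph.isTree_iff_connected_and_card]
  refine ⟨by decide, ?_⟩
  rw [Nat.card_eq_fintype_card, Nat.card_eq_fintype_card, Fintype.card_fin]
  decide

theorem chair_dec : ∀ W : Finset (Fin 5), ((univ : Finset (Fin 5)).filter (fun w =>
    (w ∉ W ∧ (W.filter (fun x => chair.Adj w x)).card = 1) ∨
    (w ∈ W ∧ (W.filter (fun x => chair.Adj w x)).card = 0))).card ≤ 4 := by decide

theorem chair_le : ESPN chair ≤ 4 := by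
  apply csSup_le (Set.range_nonempty _)
  rintro _ ⟨U, rfl⟩
  have hU : (((Set.toFinite U).toFinset : Finset (Fin 5)) : Set (Fin 5)) = U := by simp
  simp only
  rw [← hU]
  generalize (Set.toFinite U).toFinset = W
  rw [← score_eq chair W ((univ : Finset (Fin 5)).filter (fun w =>
    (w ∉ W ∧ (W.filter (fun x => chair.Adj w x)).card = 1) ∨
    (w ∈ W ∧ (W.filter (fun x => chair.Adj w x)).card = 0)))]
  · exact chair_dec W
  · intro w
    simp only [mem_filter, mem_univ, true_and, Good, dg]
    constructor <;> intro h <;> convert h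

/-- The set of constants `c` with `ESPN(T) ≥ c n(T)` for every finite tree `T` has greatest element `4/5`. -/
theorem result : IsGreatest {c : ℝ | ∀ (V : Type) [Fintype V] (T : SimpleGraph V), T.IsTree →
    c * (Fintype.card V : ℝ) ≤ (ESPN T : ℝ)} (4 / 5) := by
  constructor
  · intro V _ T hT
    have h := lower_bound T hT
    have h' : (4 * Fintype.card V : ℝ) ≤ 5 * ESPN T := by exact_mod_cast h
    linarith
  · intro c hc
    have h := hc (Fin 5) chair chair_tree
    have h4 : (ESPN chair : ℝ) ≤ 4 := by exact_mod_cast chair_le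
    rw [Fintype.card_fin] at h
    push_cast at h
    linarith

end Pool.Agent.Results.MP_0d27c8_co.TreeConstant
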